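import Pool.Agent.W516.MT.Stmt

/-!
# MT-PADD: the first order term of an invariance property
-/

set_option autoImplicit false

namespace Pool.Agent.W230.MT

open Filter Topology Pool.Agent.W516.MTS

section

variable {K : Type} [Field K] [TopologicalSpace K] [IsTopologicalRing K] {n : ℕ} {κ : Type}
  [Fintype κ] [DecidableEq κ]

/-- multilinear maps are continuous -/
lemma cont_phi (φ : MultilinearMap K (fun _ : κ => Fin n → K) K) : Continuous φ := by
  classical
  have h1 : (φ : (κ → Fin n → K) → K) = fun x => ∑ r : κ → Fin n, (∏ l, x l (r l)) *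
      φ (fun l => Pi.single (r l) 1) := by
    funext x
    have h2 : x = fun l => ∑ j : Fin n, x l j • (Pi.single j (1 : K) : Fin n → K) := by
      funext l i
      rw [Finset.sum_apply]
      simp [Pi.single_apply]
    conv_lhs => rw [h2]
    rw [MultilinearMap.map_sum]
    refine Finset.sum_congr rfl fun r _ => ?_
    rw [MultilinearMap.map_smul_univ, smul_eq_mul]
  rw [h1]
  refine continuous_finsetSum _ fun r _ => ?_
  refine Continuous.mul ?_ continuous_const
  exact continuous_finsetProd _ fun l _ => by fun_prop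

lemma expand (φ : MultilinearMap K (fun _ : κ => Fin n → K) K) (t : K)
    (w v : κ → Fin n → K) :
    φ (fun l => v l + t • w l) = ∑ s : Finset κ, t ^ s.card * φ (s.piecewise w v) := by
  have h1 : (fun l => v l + t • w l) = (fun l => t • w l) + v := by
    funext l; simp [add_comm]
  rw [h1, MultilinearMap.map_add_univ]
  refine Finset.sum_congr rfl fun s _ => ?_
  have h2 : s.piecewise (fun l => t • w l) v =
      s.piecewise (fun l => t • (s.piecewise w v) l) (s.piecewise w v) := by
    funext l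
    by_cases hl : l ∈ s
    · simp [hl]
    · simp [hl]
  rw [h2, MultilinearMap.map_piecewise_smul φ (fun _ => t) (s.piecewise w v) s]
  simp

end

theorem T_PADD : S_PADD := by
  classical
  intro ℓ _ n κ _ _ φ N M t ht0 ht Y y Y₀ y₀ hY hy h v
  set B : ℕ → Matrix (Fin n) (Fin n) ℚ_[ℓ] := fun k =>
    Y k * ∑ i ∈ Finset.range N, (1 + t k • Y k) ^ i with hB
  set β : ℕ → ℚ_[ℓ] := fun k => y k * ∑ i ∈ Finset.range M, (1 + t k * y k) ^ i with hβ
  have hBeq : ∀ k, (1 + t k • Y k) ^ N = 1 + t k • B k := by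
    intro k
    have h1 := mul_geom_sum (1 + t k • Y k) N
    rw [add_sub_cancel_left, smul_mul_assoc] at h1
    rw [hB]
    simp only
    rw [h1]
    abel
  have hβeq : ∀ k, (1 + t k * y k) ^ M = 1 + t k * β k := by
    intro k
    have h1 := mul_geom_sum (1 + t k * y k) M
    rw [add_sub_cancel_left, mul_assoc] at h1
    rw [hβ]
    simp only
    rw [h1]
    ring
  set w : ℕ → κ → Fin n → ℚ_[ℓ] := fun k l => (B k).mulVec (v l) with hw
  -- the identity after division by `t`
  have hid : ∀ k, ∑ s ∈ Finset.univ.erase (∅ : Finset κ),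
      t k ^ (s.card - 1) * φ (s.piecewise (w k) v) = β k * φ v := by
    intro k
    have h1 := h k v
    rw [hβeq k] at h1
    have h2 : (fun l => ((1 + t k • Y k) ^ N).mulVec (v l)) = fun l => v l + t k • w k l := by
      funext l
      rw [hBeq k, Matrix.add_mulVec, Matrix.one_mulVec, Matrix.smul_mulVec]
    rw [h2, expand, ← Finset.add_sum_erase _ _ (Finset.mem_univ (∅ : Finset κ))] at h1
    simp only [Finset.card_empty, pow_zero, one_mul, Finset.piecewise_empty] at h1
    have h3 : ∑ s ∈ Finset.univ.erase (∅ : Finset κ), t k ^ s.card * φ (s.piecewise (w k) v) =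
        t k * ∑ s ∈ Finset.univ.erase (∅ : Finset κ),
          t k ^ (s.card - 1) * φ (s.piecewise (w k) v) := by
      rw [Finset.mul_sum]
      refine Finset.sum_congr rfl fun s hs => ?_
      have hs1 : s ≠ ∅ := (Finset.mem_erase.mp hs).1
      have hs2 : 0 < s.card := Finset.card_pos.mpr (Finset.nonempty_iff_ne_empty.mpr hs1)
      obtain ⟨m, hm⟩ : ∃ m, s.card = m + 1 := ⟨s.card - 1, by omega⟩
      rw [hm, Nat.add_sub_cancel, pow_succ]
      ring
    rw [h3] at h1
    have h4 : t k * ∑ s ∈ Finset.univ.erase (∅ : Finset κ),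
        t k ^ (s.card - 1) * φ (s.piecewise (w k) v) = t k * (β k * φ v) := by
      linear_combination h1
    exact mul_left_cancel₀ (ht0 k) h4
  -- limits
  have hBlim : Tendsto B atTop (𝓝 ((N : ℚ_[ℓ]) • Y₀)) := by
    have h1 : Tendsto B atTop (𝓝 (Y₀ * ∑ i ∈ Finset.range N,
        (1 + (0 : ℚ_[ℓ]) • Y₀) ^ i)) := by
      refine hY.mul (tendsto_finsetSum _ fun i _ => ?_)
      exact (tendsto_const_nhds.add (ht.smul hY)).pow i
    have h2 : Y₀ * ∑ i ∈ Finset.range N, (1 + (0 : ℚ_[ℓ]) • Y₀) ^ i = (N : ℚ_[ℓ]) • Y₀ := by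
      simp only [zero_smul, add_zero, one_pow, Finset.sum_const, Finset.card_range, nsmul_eq_mul,
        mul_one]
      rw [← nsmul_eq_mul', Nat.cast_smul_eq_nsmul]
    rwa [h2] at h1
  have hβlim : Tendsto β atTop (𝓝 (y₀ * M)) := by
    have h1 : Tendsto β atTop (𝓝 (y₀ * ∑ i ∈ Finset.range M, (1 + 0 * y₀) ^ i)) := by
      refine hy.mul (tendsto_finsetSum _ fun i _ => ?_)
      exact (tendsto_const_nhds.add (ht.mul hy)).pow i
    simpa using h1
  set w₀ : κ → Fin n → ℚ_[ℓ] := fun l => (N : ℚ_[ℓ]) • Y₀.mulVec (v l) with hw₀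
  have hwlim : Tendsto w atTop (𝓝 w₀) := by
    rw [tendsto_pi_nhds]
    intro l
    have h1 : Continuous fun Z : Matrix (Fin n) (Fin n) ℚ_[ℓ] => Z.mulVec (v l) :=
      Continuous.matrix_mulVec continuous_id continuous_const
    have h2 := (h1.tendsto _).comp hBlim
    rw [Matrix.smul_mulVec] at h2
    exact h2
  have hplim : ∀ s : Finset κ, Tendsto (fun k => s.piecewise (w k) v) atTop
      (𝓝 (s.piecewise w₀ v)) := by
    intro s
    rw [tendsto_pi_nhds]
    intro l
    by_cases hl : l ∈ s
    · simp only [Finset.piecewise_eq_of_mem _ _ _ hl]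
      exact (tendsto_pi_nhds.mp hwlim) l
    · simp only [Finset.piecewise_eq_of_notMem _ _ _ hl]
      exact tendsto_const_nhds
  have hlim1 : Tendsto (fun k => ∑ s ∈ Finset.univ.erase (∅ : Finset κ),
      t k ^ (s.card - 1) * φ (s.piecewise (w k) v)) atTop
      (𝓝 (∑ s ∈ Finset.univ.erase (∅ : Finset κ),
        (0 : ℚ_[ℓ]) ^ (s.card - 1) * φ (s.piecewise w₀ v))) := by
    refine tendsto_finsetSum _ fun s _ => ?_
    exact (ht.pow _).mul (((cont_phi φ).tendsto _).comp (hplim s))
  have hlim2 : Tendsto (fun k => β k * φ v) atTop (𝓝 (y₀ * M * φ v)) :=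
    hβlim.mul tendsto_const_nhds
  simp_rw [hid] at hlim1
  have hfin := tendsto_nhds_unique hlim1 hlim2
  -- the limit is a sum over singletons
  have hsing : ∑ s ∈ Finset.univ.erase (∅ : Finset κ),
      (0 : ℚ_[ℓ]) ^ (s.card - 1) * φ (s.piecewise w₀ v) =
      ∑ j, φ (Function.update v j (w₀ j)) := by
    have hsub : (Finset.univ.image fun j : κ => ({j} : Finset κ)) ⊆
        Finset.univ.erase (∅ : Finset κ) := by
      intro s hs
      obtain ⟨j, -, rfl⟩ := Finset.mem_image.mp hs
      simp
    rw [← Finset.sum_subset hsub]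
    · rw [Finset.sum_image (fun a _ b _ hab => Finset.singleton_injective hab)]
      refine Finset.sum_congr rfl fun j _ => ?_
      simp [Finset.piecewise_singleton]
    · intro s hs hns
      have hs1 : s ≠ ∅ := (Finset.mem_erase.mp hs).1
      have hs2 : 0 < s.card := Finset.card_pos.mpr (Finset.nonempty_iff_ne_empty.mpr hs1)
      have hs3 : s.card ≠ 1 := by
        intro h1
        obtain ⟨j, rfl⟩ := Finset.card_eq_one.mp h1
        exact hns (Finset.mem_image_of_mem _ (Finset.mem_univ j))
      rw [zero_pow (by omega), zero_mul]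
  rw [hsing] at hfin
  have hlast : ∑ j, φ (Function.update v j (w₀ j)) =
      (N : ℚ_[ℓ]) * ∑ j, φ (Function.update v j (Y₀.mulVec (v j))) := by
    rw [Finset.mul_sum]
    refine Finset.sum_congr rfl fun j _ => ?_
    rw [hw₀]
    simp only
    rw [MultilinearMap.map_update_smul, smul_eq_mul]
  rw [← hlast, hfin]
  ring

end Pool.Agent.W230.MT
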